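import Pool.Agent.H7.FrCor.Proof

set_option autoImplicit false

namespace Pool.Agent.Results.MP_8296bc_an.NoCoresolution

open Pool.Agent.H7.FrCor

/-- There is a Fréchet algebra `M` (concretely `xℂ[[x]]`) such that non-zero Fréchet modules over
`M` exist, and none of them has an injective coresolution. -/
theorem result :
    ∃ M : FAlg, (∃ X : FMod M, Nontrivial X.E.X) ∧
      ∀ X : FMod M, Nontrivial X.E.X → ¬ HasInjCores X := by
  refine ⟨AA, ⟨⟨SA, AA.mul, AA.assoc⟩, ?_⟩, ?_⟩
  · show Nontrivial (ℕ → ℂ)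
    infer_instance
  · intro X hX hR
    obtain ⟨R, hR⟩ := hR
    have h0 := subsingleton_of_inj (R.J 0) (hR 0)
    obtain ⟨x, y, hxy⟩ := exists_pair_ne X.E.X
    apply hxy
    rw [← R.s0_aug x, ← R.s0_aug y, Subsingleton.elim (R.aug.f x) (R.aug.f y)]

end Pool.Agent.Results.MP_8296bc_an.NoCoresolution
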